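import Pool.Agent.Lib.MP_c5d73d_lc.T.Basic

/-!
# Extension of `B`-valued filters to `B`-valued ultrafilters
-/

universe u

open Cardinal Set

namespace Pool.Agent.Lib.MP_c5d73d_lc.T.H90

variable {B : Type u} [CompleteBooleanAlgebra B]

/-- The sets considered in Zorn's lemma. -/
def Cen (M : Set (ℕ → B)) : Prop :=
  (∀ a ∈ M, ∀ b ∈ M, a ⊓ b ∈ M) ∧ ∀ a ∈ M, fin a = ⊥

theorem exists_max (G : Set (ℕ → B)) (hG : Cen G) :
    ∃ M : Set (ℕ → B), G ⊆ M ∧ ⊤ ∈ M ∧ Cen M ∧ ∀ c, (∀ a ∈ M, fin (a ⊓ c) = ⊥) → c ∈ M := by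
  have hG' : Cen (insert ⊤ G) := by
    refine ⟨?_, ?_⟩
    · rintro a (rfl | ha) b (rfl | hb)
      · left; simp
      · right; simpa using hb
      · right; simpa using ha
      · right; exact hG.1 a ha b hb
    · rintro a (rfl | ha)
      · exact fin_top
      · exact hG.2 a ha
  obtain ⟨M, hGM, hM⟩ := zorn_subset_nonempty {M : Set (ℕ → B) | Cen M}
    (by
      intro C hC hchain hne
      refine ⟨⋃₀ C, ⟨?_, ?_⟩, fun s hs => subset_sUnion_of_mem hs⟩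
      · rintro a ⟨s, hs, has⟩ b ⟨t, ht, hbt⟩
        rcases hchain.total hs ht with h | h
        · exact ⟨t, ht, (hC ht).1 a (h has) b hbt⟩
        · exact ⟨s, hs, (hC hs).1 a has b (h hbt)⟩
      · rintro a ⟨s, hs, has⟩
        exact (hC hs).2 a has) (insert ⊤ G) hG'
  have hMc : Cen M := hM.prop
  refine ⟨M, (subset_insert _ _).trans hGM, hGM (mem_insert _ _), hMc, ?_⟩
  intro c hc
  have htop : (⊤ : ℕ → B) ∈ M := hGM (mem_insert _ _)
  have hM' : Cen (M ∪ (fun a => a ⊓ c) '' M) := by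
    refine ⟨?_, ?_⟩
    · rintro a (ha | ⟨a, ha, rfl⟩) b (hb | ⟨b, hb, rfl⟩)
      · exact Or.inl (hMc.1 a ha b hb)
      · exact Or.inr ⟨a ⊓ b, hMc.1 a ha b hb, inf_assoc _ _ _⟩
      · refine Or.inr ⟨a ⊓ b, hMc.1 a ha b hb, ?_⟩
        change a ⊓ b ⊓ c = a ⊓ c ⊓ b
        rw [inf_right_comm]
      · refine Or.inr ⟨a ⊓ b, hMc.1 a ha b hb, ?_⟩
        change a ⊓ b ⊓ c = a ⊓ c ⊓ (b ⊓ c)
        rw [inf_inf_inf_comm, inf_idem]
    · rintro a (ha | ⟨a, ha, rfl⟩)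
      · exact hMc.2 a ha
      · exact hc a ha
  have hsub := hM.le_of_ge hM' subset_union_left
  exact hsub (Or.inr ⟨⊤, htop, top_inf_eq _⟩)

theorem ult : UltStatement.{u} := by
  intro B _ G hG1 hG2
  obtain ⟨M, hGM, htop, ⟨hM1, hM2⟩, hmax⟩ := exists_max G ⟨hG1, hG2⟩
  -- the value
  let x : (ℕ → B) → B := fun a => ⨅ d ∈ M, (fin (d ⊓ a))ᶜ
  have hx : ∀ (a : ℕ → B) (p : B), p ≤ x a ↔ ∀ d ∈ M, p ⊓ fin (d ⊓ a) = ⊥ := by
    intro a p
    simp only [x, le_iInf_iff, le_compl_iff_disjoint_right, disjoint_iff]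
  have hxM : ∀ a ∈ M, x a = ⊤ := by
    intro a ha
    rw [eq_top_iff, hx]
    intro d hd
    rw [hM2 _ (hM1 d hd a ha), inf_bot_eq]
  have hmono : ∀ a b : ℕ → B, a ≤ b → x a ≤ x b := by
    intro a b hab
    refine iInf_mono fun d => iInf_mono fun _ => compl_le_compl (fin_anti ?_)
    exact inf_le_inf_left d hab
  have hup : ∀ a ∈ M, ∀ b, a ≤ b → b ∈ M := by
    intro a ha b hab
    refine hmax b fun d hd => ?_
    exact le_bot_iff.1 ((fin_anti (inf_le_inf_left d hab)).trans (hM2 _ (hM1 d hd a ha)).le)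
  -- membership of a real which is `a` on `p`
  have hmemp : ∀ (a : ℕ → B) (p : B), p ≤ x a → a ⊔ cut pᶜ ⊤ ∈ M := by
    intro a p hp
    refine hmax _ fun d hd => ?_
    rw [inf_sup_left, fin_sup, inf_comm d (cut pᶜ ⊤), cut_inf, top_inf_eq, fin_cut, compl_compl,
      hM2 d hd, sup_bot_eq, inf_comm]
    exact (hx a p).1 hp d hd
  have hinf : ∀ a b, x (a ⊓ b) = x a ⊓ x b := by
    intro a b
    refine le_antisymm (le_inf (hmono _ _ inf_le_left) (hmono _ _ inf_le_right)) ?_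
    have h1 := hmemp a (x a) le_rfl
    have h2 := hmemp b (x b) le_rfl
    have h3 := hM1 _ h1 _ h2
    rw [hx]
    intro d hd
    have h4 := hM2 _ (hM1 d hd _ h3)
    have h5 : d ⊓ ((a ⊔ cut (x a)ᶜ ⊤) ⊓ (b ⊔ cut (x b)ᶜ ⊤)) ≤
        (d ⊓ (a ⊓ b)) ⊔ cut (x a ⊓ x b)ᶜ ⊤ := by
      have h7 : (cut (x a ⊓ x b)ᶜ ⊤ : ℕ → B) = cut (x a)ᶜ ⊤ ⊔ cut (x b)ᶜ ⊤ := by
        funext n
        change (x a ⊓ x b)ᶜ ⊓ ⊤ = ((x a)ᶜ ⊓ ⊤) ⊔ ((x b)ᶜ ⊓ ⊤)
        rw [compl_inf, inf_top_eq, inf_top_eq, inf_top_eq]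
      rw [h7]
      have h8 : (a ⊔ cut (x a)ᶜ ⊤) ⊓ (b ⊔ cut (x b)ᶜ ⊤) ≤
          (a ⊓ b) ⊔ (cut (x a)ᶜ ⊤ ⊔ cut (x b)ᶜ ⊤) := by
        rw [sup_inf_right]
        exact inf_le_inf (sup_le_sup_left le_sup_left _) (sup_le_sup_left le_sup_right _)
      refine (inf_le_inf_left d h8).trans ?_
      rw [inf_sup_left]
      exact sup_le_sup_left inf_le_right _
    have h6 := (fin_anti h5).trans h4.le
    rw [fin_sup, fin_cut, compl_compl, fin_top, sup_bot_eq, inf_comm] at h6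
    exact le_bot_iff.1 h6
  refine ⟨x, ⟨hinf, ?_, ?_, ?_⟩, fun a ha => hxM a (hGM ha)⟩
  · intro a
    refine le_antisymm ?_ ?_
    · rw [le_compl_iff_disjoint_right, disjoint_iff, ← hinf, inf_comm, inf_compl_self]
      refine le_bot_iff.1 ?_
      refine (iInf₂_le (⊤ : ℕ → B) htop).trans ?_
      rw [inf_bot_eq, fin_bot, compl_top]
    · change (⨅ d ∈ M, (fin (d ⊓ a))ᶜ)ᶜ ≤ x aᶜ
      rw [compl_iInf]
      refine iSup_le fun d => ?_
      rw [compl_iInf]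
      refine iSup_le fun hd => ?_
      rw [compl_compl, hx]
      intro e he
      rw [← fin_sup]
      refine le_bot_iff.1 ((fin_anti ?_).trans (hM2 _ (hM1 d hd e he)).le)
      calc d ⊓ e = (d ⊓ e) ⊓ (a ⊔ aᶜ) := by rw [sup_compl_eq_top, inf_top_eq]
        _ = (d ⊓ e ⊓ a) ⊔ (d ⊓ e ⊓ aᶜ) := inf_sup_left _ _ _
        _ ≤ d ⊓ a ⊔ e ⊓ aᶜ := sup_le_sup (inf_le_inf_right _ inf_le_left)
            (inf_le_inf_right _ inf_le_right)
  · intro p a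
    have h1 : cut p a = cut p ⊤ ⊓ a := by rw [cut_inf, top_inf_eq]
    rw [h1, hinf]
    congr 1
    refine le_antisymm ?_ ?_
    · refine (iInf₂_le (⊤ : ℕ → B) htop).trans ?_
      rw [top_inf_eq, fin_const_top, compl_compl]
    · rw [hx]
      intro d hd
      rw [inf_comm d, cut_inf, top_inf_eq, fin_cut, hM2 d hd, sup_bot_eq, inf_compl_self]
  · intro a
    have h1 : x a ≤ (fin a)ᶜ := by
      refine (iInf₂_le (⊤ : ℕ → B) htop).trans ?_
      rw [top_inf_eq]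
    have h2 := compl_le_compl h1
    rwa [compl_compl] at h2

end Pool.Agent.Lib.MP_c5d73d_lc.T.H90
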